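import Mathlib
import Pool.Agent.Helper849.TA.Stmts

set_option autoImplicit false

/-!
Task CLOSED of project TILTAPPROX: the image under projection to the `u` variables of a weighted
cone which meets `u = 0` only at the origin is a closed cone.
-/

namespace Pool.Agent.H830R3.TA

open MvPolynomial

attribute [local instance] MvPolynomial.weightedGradedAlgebra

/-- The weights: `1` on the `x` variables and `e` on the `u` variables. -/
abbrev wt (M n e : ℕ) : Fin M ⊕ Fin n → ℕ := Sum.elim (fun _ => 1) (fun _ => e)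

lemma weight_wt (M n e : ℕ) (c : Fin M ⊕ Fin n →₀ ℕ) :
    Finsupp.weight (wt M n e) c
      = ∑ i : Fin M, c (Sum.inl i) + e * ∑ k : Fin n, c (Sum.inr k) := by
  rw [Finsupp.weight_apply, Finsupp.sum_fintype _ _ (by simp)]
  simp [Fintype.sum_sum_type, Finset.mul_sum, mul_comm]

variable {F : Type} [Field F]

lemma homog {M n s e : ℕ} {g : Fin s → MvPolynomial (Fin M ⊕ Fin n) F} {d : Fin s → ℕ}
    (hg : ∀ i, IsWeightedHomogeneous (wt M n e) (g i) (d i)) :
    (Ideal.span (Set.range g)).IsHomogeneous (weightedHomogeneousSubmodule F (wt M n e)) := by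
  apply Ideal.homogeneous_span
  rintro _ ⟨i, rfl⟩
  exact ⟨d i, hg i⟩

lemma red [IsAlgClosed F] {M n s e : ℕ} (he : 0 < e)
    {g : Fin s → MvPolynomial (Fin M ⊕ Fin n) F} {d : Fin s → ℕ}
    (hg : ∀ i, IsWeightedHomogeneous (wt M n e) (g i) (d i))
    (h0 : ∀ x : Fin M → F, (∀ i, eval (Sum.elim x (fun _ => 0)) (g i) = 0) → x = 0) (j : Fin M) :
    ∃ (L : ℕ) (v : MvPolynomial (Fin M ⊕ Fin n) F),
      X (Sum.inl j) ^ L - v ∈ Ideal.span (Set.range g) ∧
        ∀ c ∈ v.support, ∑ i, c (Sum.inl i) < L := by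
  classical
  set I := Ideal.span (Set.range g) with hI
  let U : Ideal (MvPolynomial (Fin M ⊕ Fin n) F) :=
    Ideal.span (X '' (Set.range (Sum.inr : Fin n → Fin M ⊕ Fin n)))
  have h1 : (X (Sum.inl j) : MvPolynomial (Fin M ⊕ Fin n) F) ∈
      vanishingIdeal F (zeroLocus F (I ⊔ U)) := by
    intro z hz
    have hx : ∀ k, z (Sum.inr k) = 0 := by
      intro k
      have := hz (X (Sum.inr k)) (Ideal.mem_sup_right
        (Ideal.subset_span ⟨Sum.inr k, ⟨k, rfl⟩, rfl⟩))
      simpa using this
    have hze : z = Sum.elim (z ∘ Sum.inl) (fun _ => 0) := by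
      ext (i | k)
      · rfl
      · simp [hx]
    have h2 := h0 (z ∘ Sum.inl) (fun i => by
      rw [← hze]
      have := hz (g i) (Ideal.mem_sup_left (Ideal.subset_span ⟨i, rfl⟩))
      simpa [MvPolynomial.aeval_eq_eval] using this)
    have h3 := congrFun h2 j
    simpa using h3
  rw [vanishingIdeal_zeroLocus_eq_radical] at h1
  obtain ⟨L, hL⟩ := h1
  obtain ⟨a, ha, v, hv, hav⟩ := Submodule.mem_sup.1 hL
  refine ⟨L, weightedHomogeneousComponent (wt M n e) L v, ?_, ?_⟩
  · have hX : (X (Sum.inl j) : MvPolynomial (Fin M ⊕ Fin n) F) ^ L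
        = weightedHomogeneousComponent (wt M n e) L (X (Sum.inl j) ^ L) := by
      rw [weightedHomogeneousComponent_eq_self]
      have := (isWeightedHomogeneous_X F (wt M n e) (Sum.inl j)).pow L
      simpa using this
    rw [hX, ← hav, map_add, add_sub_cancel_right]
    exact weightedHomogeneousComponent_mem_of_mem _ _ (homog hg) ha L
  · intro c hc
    rw [support_weightedHomogeneousComponent, Finset.mem_filter] at hc
    obtain ⟨_, ⟨k, rfl⟩, hk⟩ := mem_ideal_span_X_image.1 hv c hc.1
    have h4 := weight_wt M n e c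
    rw [hc.2] at h4
    have h5 : c (Sum.inr k) ≤ ∑ k : Fin n, c (Sum.inr k) :=
      Finset.single_le_sum (f := fun k => c (Sum.inr k)) (fun _ _ => Nat.zero_le _)
        (Finset.mem_univ k)
    have h6 : 0 < e * ∑ k : Fin n, c (Sum.inr k) := Nat.mul_pos he (by omega)
    omega

section
variable {M n : ℕ}

/-- The `x` part of an exponent. -/
noncomputable def cl (c : Fin M ⊕ Fin n →₀ ℕ) : Fin M →₀ ℕ :=
  Finsupp.equivFunOnFinite.symm (fun i => c (Sum.inl i))

/-- The `u` part of an exponent. -/
noncomputable def cr (c : Fin M ⊕ Fin n →₀ ℕ) : Fin n →₀ ℕ :=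
  Finsupp.equivFunOnFinite.symm (fun i => c (Sum.inr i))

lemma split (c : Fin M ⊕ Fin n →₀ ℕ) :
    (cl c).mapDomain Sum.inl + (cr c).mapDomain Sum.inr = c := by
  ext (i | k)
  · rw [Finsupp.add_apply, Finsupp.mapDomain_apply Sum.inl_injective,
      Finsupp.mapDomain_of_notMem_range _ _ (by simp)]
    simp [cl]
  · rw [Finsupp.add_apply, Finsupp.mapDomain_apply Sum.inr_injective,
      Finsupp.mapDomain_of_notMem_range _ _ (by simp)]
    simp [cr]

lemma monomial_split (c : Fin M ⊕ Fin n →₀ ℕ) (r : F) :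
    monomial c r = rename Sum.inr (monomial (cr c) r) * rename Sum.inl (monomial (cl c) 1) := by
  rw [rename_monomial, rename_monomial, monomial_mul, mul_one, add_comm, split]

lemma degree_cl (c : Fin M ⊕ Fin n →₀ ℕ) : (cl c).degree = ∑ i, c (Sum.inl i) := by
  rw [Finsupp.degree_eq_sum]; simp [cl]

lemma finA {A : Type} [CommRing A] [Algebra (MvPolynomial (Fin n) F) A]
    (π : MvPolynomial (Fin M ⊕ Fin n) F →+* A) (hπ : Function.Surjective π)
    (hal : ∀ f, algebraMap (MvPolynomial (Fin n) F) A f = π (rename Sum.inr f))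
    (L : Fin M → ℕ) (v : Fin M → MvPolynomial (Fin M ⊕ Fin n) F)
    (hv : ∀ j, π (X (Sum.inl j)) ^ (L j) = π (v j))
    (hs : ∀ j, ∀ c ∈ (v j).support, ∑ i, c (Sum.inl i) < L j) :
    Module.Finite (MvPolynomial (Fin n) F) A := by
  classical
  let mon : (Fin M →₀ ℕ) → A := fun a => π (rename Sum.inl (monomial a (1 : F)))
  let N : Submodule (MvPolynomial (Fin n) F) A :=
    Submodule.span _ (mon '' {a | a.degree ≤ ∑ j, L j})
  have hmon : ∀ (c : Fin M ⊕ Fin n →₀ ℕ) (r : F),
      π (monomial c r) = (monomial (cr c) r : MvPolynomial (Fin n) F) • mon (cl c) := by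
    intro c r
    rw [monomial_split, map_mul, Algebra.smul_def, hal]
  have hmul : ∀ a b : Fin M →₀ ℕ, mon a * mon b = mon (a + b) := by
    intro a b
    simp only [mon]
    rw [← map_mul, ← map_mul, monomial_mul, mul_one]
  have key : ∀ D : ℕ, ∀ a : Fin M →₀ ℕ, a.degree = D → mon a ∈ N := by
    intro D
    induction D using Nat.strong_induction_on with
    | _ D ih =>
      intro a ha
      by_cases hle : a.degree ≤ ∑ j, L j
      · exact Submodule.subset_span ⟨a, hle, rfl⟩
      · push Not at hle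
        have h1 : ∑ j, L j < ∑ j, a j := by
          rw [Finsupp.degree_eq_sum] at hle; exact hle
        obtain ⟨j, -, hj⟩ := Finset.exists_lt_of_sum_lt h1
        obtain ⟨a', rfl⟩ : ∃ a', a = Finsupp.single j (L j) + a' :=
          ⟨a - Finsupp.single j (L j), by
            rw [add_tsub_cancel_of_le]
            rw [Finsupp.single_le_iff]
            exact hj.le⟩
        have hX : mon (Finsupp.single j (L j)) = π (v j) := by
          rw [← hv, ← map_pow]
          simp only [mon]
          rw [rename_monomial, Finsupp.mapDomain_single, X_pow_eq_monomial]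
        rw [← hmul, hX]
        rw [(v j).as_sum, map_sum, Finset.sum_mul]
        refine Submodule.sum_mem _ (fun c hc => ?_)
        rw [hmon, smul_mul_assoc, hmul]
        refine Submodule.smul_mem _ _ (ih _ ?_ _ rfl)
        have h2 := hs j c hc
        rw [map_add, degree_cl]
        rw [map_add, Finsupp.degree_single] at ha
        omega
  have htop : N = ⊤ := by
    rw [eq_top_iff]
    intro y _
    obtain ⟨f, rfl⟩ := hπ y
    rw [f.as_sum, map_sum]
    refine Submodule.sum_mem _ (fun c _ => ?_)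
    rw [hmon]
    exact Submodule.smul_mem _ _ (key _ _ rfl)
  refine ⟨?_⟩
  rw [← htop]
  exact Submodule.fg_span ((Finsupp.finite_of_degree_le _).image _)

lemma point [IsAlgClosed F] {A : Type} [CommRing A] [Algebra (MvPolynomial (Fin n) F) A]
    [Module.Finite (MvPolynomial (Fin n) F) A]
    (π : MvPolynomial (Fin M ⊕ Fin n) F →+* A) (hπ : Function.Surjective π)
    (hal : ∀ f, algebraMap (MvPolynomial (Fin n) F) A f = π (rename Sum.inr f))
    (u : Fin n → F) (hk : ∀ f : MvPolynomial (Fin n) F, π (rename Sum.inr f) = 0 → eval u f = 0) :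
    ∃ z : Fin M ⊕ Fin n → F, (∀ k, z (Sum.inr k) = u k) ∧ ∀ f, π f = 0 → eval z f = 0 := by
  let m : Ideal (MvPolynomial (Fin n) F) := RingHom.ker (eval u)
  have hm : m.IsMaximal := RingHom.ker_isMaximal_of_surjective _ (fun c => ⟨C c, by simp⟩)
  have hker : RingHom.ker (algebraMap (MvPolynomial (Fin n) F) A) ≤ m := by
    intro f hf
    exact hk f ((hal f).symm.trans hf)
  obtain ⟨Q, hQ, hQm⟩ := Ideal.exists_ideal_over_maximal_of_isIntegral m hker
  have hQ2 := Ideal.comap_isMaximal_of_surjective π hπ (K := Q)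
  obtain ⟨z, hz⟩ := isMaximal_iff_eq_vanishingIdeal_singleton.1 hQ2
  refine ⟨z, fun k => ?_, fun f hf => ?_⟩
  · have h1 : (X k - C (u k)) ∈ m := by
      change eval u _ = 0
      simp
    rw [← hQm, Ideal.mem_comap, hal, ← Ideal.mem_comap] at h1
    rw [hz, mem_vanishingIdeal_singleton_iff] at h1
    simpa [sub_eq_zero] using h1
  · have h3 : f ∈ Ideal.comap π Q := by
      rw [Ideal.mem_comap, hf]
      exact Q.zero_mem
    rw [hz, mem_vanishingIdeal_singleton_iff] at h3
    simpa [MvPolynomial.aeval_eq_eval] using h3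

lemma rename_comp {e : ℕ} (he : 0 < e) (m : ℕ) (f : MvPolynomial (Fin n) F) :
    rename (Sum.inr : Fin n → Fin M ⊕ Fin n) (homogeneousComponent m f)
      = weightedHomogeneousComponent (wt M n e) (e * m) (rename Sum.inr f) := by
  classical
  induction f using MvPolynomial.induction_on' with
  | monomial c r =>
    have h1 : monomial c r ∈ homogeneousSubmodule (Fin n) F c.degree :=
      isHomogeneous_monomial r rfl
    have h2 : rename (Sum.inr : Fin n → Fin M ⊕ Fin n) (monomial c r) ∈
        weightedHomogeneousSubmodule F (wt M n e) (e * c.degree) := by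
      rw [rename_monomial, mem_weightedHomogeneousSubmodule]
      apply isWeightedHomogeneous_monomial
      rw [weight_wt, Finsupp.degree_eq_sum]
      have h3 : ∑ i : Fin M, (Finsupp.mapDomain (Sum.inr : Fin n → Fin M ⊕ Fin n) c) (Sum.inl i)
          = 0 := Finset.sum_eq_zero (fun i _ => Finsupp.mapDomain_of_notMem_range _ _ (by simp))
      rw [h3, zero_add]
      congr 1
      exact Finset.sum_congr rfl (fun k _ => Finsupp.mapDomain_apply Sum.inr_injective _ _)
    rw [homogeneousComponent_of_mem h1, weightedHomogeneousComponent_of_mem h2]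
    by_cases hm : m = c.degree
    · simp [hm]
    · rw [if_neg hm, if_neg (fun h => hm (Nat.eq_of_mul_eq_mul_left he h)), map_zero]
  | add p q hp hq => simp only [map_add, hp, hq]

end

theorem taskClosed : Pool.Agent.Helper849.TA.TaskClosed := by
  intro F _ _ M n s e he g d hg h0
  classical
  set I := Ideal.span (Set.range g) with hI
  refine ⟨{f | (∃ m : ℕ, f.IsHomogeneous m) ∧ rename Sum.inr f ∈ I}, fun f hf => hf.1,
    fun u => ⟨fun hu => ?_, ?_⟩⟩
  · choose L v hLv hs using fun j => red he hg h0 j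
    let ρ : MvPolynomial (Fin n) F →+* (MvPolynomial (Fin M ⊕ Fin n) F ⧸ I) :=
      (Ideal.Quotient.mk I).comp (rename (Sum.inr : Fin n → Fin M ⊕ Fin n) (R := F)).toRingHom
    have hfin := @finA F _ M n (MvPolynomial (Fin M ⊕ Fin n) F ⧸ I) _ ρ.toAlgebra
      (Ideal.Quotient.mk I) Ideal.Quotient.mk_surjective (fun _ => rfl) L v
      (fun j => by
        rw [← map_pow]
        exact Ideal.Quotient.eq.2 (hLv j)) hs
    obtain ⟨z, hzu, hz⟩ := @point F _ M n _ (MvPolynomial (Fin M ⊕ Fin n) F ⧸ I) _ ρ.toAlgebra hfin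
      (Ideal.Quotient.mk I) Ideal.Quotient.mk_surjective (fun _ => rfl) u (fun f hf => by
        have hf' : rename Sum.inr f ∈ I := Ideal.Quotient.eq_zero_iff_mem.1 hf
        rw [← sum_homogeneousComponent f, map_sum]
        refine Finset.sum_eq_zero
          (fun k _ => hu _ ⟨⟨k, homogeneousComponent_isHomogeneous k f⟩, ?_⟩)
        rw [rename_comp he]
        exact weightedHomogeneousComponent_mem_of_mem _ _ (homog hg) hf' _)
    have hze : Sum.elim (z ∘ Sum.inl) u = z := by
      ext (i | k)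
      · rfl
      · simp [hzu]
    refine ⟨z ∘ Sum.inl, fun i => ?_⟩
    rw [hze]
    exact hz _ (Ideal.Quotient.eq_zero_iff_mem.2 (Ideal.subset_span ⟨i, rfl⟩))
  · rintro ⟨x, hx⟩ f ⟨_, hf⟩
    have h1 : I ≤ RingHom.ker (eval (Sum.elim x u)) :=
      Ideal.span_le.2 (by rintro _ ⟨i, rfl⟩; exact hx i)
    have h2 : eval (Sum.elim x u) (rename Sum.inr f) = 0 := h1 hf
    rwa [eval_rename, Sum.elim_comp_inr] at h2

end Pool.Agent.H830R3.TA
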